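import Pool.Agent.helper17.EXT.Spec

/-!
# Row `ft:IMF`: images of long root groups
-/

set_option autoImplicit false

open Finset

namespace Pool.Agent.EXT

open Pool.Agent.EXC

section
variable {K : Type} [Field K] {τ : K ≃+* K}

theorem IMF_smul (a : Lm C6 K) (c t : K) (v : Lm C6 K) : xe C6 (c • a) t v = xe C6 a (c * t) v := by
  unfold xe
  rw [br_smul_left, fm_smul_left, smul_smul, smul_smul, mul_comm t c]
  congr 2
  ring

theorem IMF_smulF (a : Lm C6 K) (c t : K) (f : Equiv.Perm (LT τ)) : IsF τ (c • a) t f ↔ IsF τ a (c * t) f := by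
  unfold IsF
  exact forall_congr' fun v => by rw [IMF_smul]

theorem IMF_key (a : Lm C6 K) (c : K) (hc : τ c = c) (h0 : c ≠ 0) (f : Equiv.Perm (LT τ)) :
    InX τ (c • a) f ↔ InX τ a f := by
  constructor
  · rintro ⟨t, h1, ht⟩
    exact ⟨c * t, by rw [map_mul, hc, h1], (IMF_smulF a c t f).1 ht⟩
  · rintro ⟨t, h1, ht⟩
    refine ⟨c⁻¹ * t, by rw [map_mul, map_inv₀, hc, h1], (IMF_smulF a c _ f).2 ?_⟩
    rwa [mul_inv_cancel_left₀ h0]

/-- images of commuting root groups commute -/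
theorem IMF_comm (x : MulAut (GF τ)) (a b a' b' : Lm C6 K) (h1 : ImF τ x a a') (h2 : ImF τ x b b')
    (hc : ∀ f f' : GF τ, InX τ a (f : Equiv.Perm (LT τ)) → InX τ b (f' : Equiv.Perm (LT τ)) → f * f' = f' * f) :
    ∀ f f' : GF τ, InX τ a' (f : Equiv.Perm (LT τ)) → InX τ b' (f' : Equiv.Perm (LT τ)) → f * f' = f' * f := by
  intro h k hh hk
  have e1 : x (x.symm h) = h := x.apply_symm_apply h
  have e2 : x (x.symm k) = k := x.apply_symm_apply k
  have p1 : InX τ a ((x.symm h : GF τ) : Equiv.Perm (LT τ)) := (h1 (x.symm h)).2 (by rw [e1]; exact hh)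
  have p2 : InX τ b ((x.symm k : GF τ) : Equiv.Perm (LT τ)) := (h2 (x.symm k)).2 (by rw [e2]; exact hk)
  have q := congrArg x (hc _ _ p1 p2)
  rw [map_mul, map_mul, e1, e2] at q
  exact q

end

theorem IMF (hESF : ESF_stmt) (hGFX : GFX_stmt) (hPCS : PCS_stmt) (hUNF : UNF_stmt) (hTHF : THF_stmt) (hTFS : TFS_stmt) : IMF_stmt := by
  intro K _ τ hτ x hx
  have hS := (hESF K τ hτ).2
  have hG := (hGFX K τ hτ).2
  have hU := hUNF K τ hτ
  have I1 : ∀ a a' b, ExS τ a → ExS τ a' → ImF τ x a b → ImF τ x a' b → ∃ c : K, τ c = c ∧ c ≠ 0 ∧ a' = c • a := by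
    intro a a' b ha ha' h1 h2
    obtain ⟨-, hne, -⟩ := hS a' ha'
    obtain ⟨f, hf, hf1⟩ := (hG a' ha').1 1 (map_one τ)
    obtain ⟨t, ht0, ht⟩ := (h1 ⟨f, hf⟩).2 ((h2 ⟨f, hf⟩).1 ⟨1, map_one τ, hf1⟩)
    have h5 := hU a' a t f ha' ha hf1 ht
    refine ⟨t, ht0, ?_, h5⟩
    rintro rfl
    exact hne (by rw [h5, zero_smul])
  have I2 : ∀ a b b', ExS τ b → ExS τ b' → ImF τ x a b → ImF τ x a b' → ∃ c : K, τ c = c ∧ c ≠ 0 ∧ b' = c • b := by
    intro a b b' hb hb' h1 h2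
    obtain ⟨-, hne, -⟩ := hS b' hb'
    obtain ⟨f, hf, hf1⟩ := (hG b' hb').1 1 (map_one τ)
    have e : x (x.symm ⟨f, hf⟩) = (⟨f, hf⟩ : GF τ) := x.apply_symm_apply _
    have h3 : InX τ b' ((x (x.symm ⟨f, hf⟩) : GF τ) : Equiv.Perm (LT τ)) := by
      rw [e]
      exact ⟨1, map_one τ, hf1⟩
    obtain ⟨t, ht0, ht⟩ := (h1 (x.symm ⟨f, hf⟩)).1 ((h2 (x.symm ⟨f, hf⟩)).2 h3)
    rw [e] at ht
    have h5 := hU b' b t f hb' hb hf1 ht
    refine ⟨t, ht0, ?_, h5⟩
    rintro rfl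
    exact hne (by rw [h5, zero_smul])
  have I4 : ∀ (a b : Lm C6 K) (c c' : K), τ c = c → τ c' = c' → c ≠ 0 → c' ≠ 0 → ImF τ x a b → ImF τ x (c • a) (c' • b) := by
    intro a b c c' hc hc' h0 h0' h1 f
    rw [IMF_key a c hc h0, IMF_key b c' hc' h0']
    exact h1 f
  refine ⟨fun a a' b ha ha' _ => I1 a a' b ha ha', fun a b b' _ hb hb' => I2 a b b' hb hb',
    fun a b c c' _ _ hc hc' h0 h0' h => I4 a b c c' hc hc' h0 h0' h, ?_⟩
  intro a b a' b' ha' hb' hia hib hT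
  obtain ⟨ha, hb, -, -, -, hp, -, -, hcm⟩ := hTFS K τ hτ a b 1 hT
  obtain ⟨m, hm1, hm2, hT'⟩ := hPCS K τ hτ a' b' ha' hb'
  obtain ⟨-, -, -, -, -, hp', -, -, hcm'⟩ := hTFS K τ hτ a' b' m hT'
  have hm0 : 0 ≤ m := hcm'.1 (IMF_comm x a b a' b' hia hib (hcm.2 (by norm_num)))
  -- proportional images come from proportional vectors
  have key : ∀ u d u' d' : Lm C6 K, ExS τ u → ExS τ d → ExS τ u' → ExS τ d' → ImF τ x u u' → ImF τ x d d' → (∃ c : K, d' = c • u') →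
      ∃ c : K, d = c • u := by
    intro u d u' d' hu hd hu' hd' h1 h2 h3
    obtain ⟨c, hc⟩ := h3
    have hc0 : c ≠ 0 := by
      intro h0
      rw [h0, zero_smul] at hc
      exact (hS d' hd').2.1 hc
    have hcτ : τ c = c := by
      obtain ⟨f, hf, hf1⟩ := (hG d' hd').1 1 (map_one τ)
      have h4 : InX τ d ((x.symm (⟨f, hf⟩ : GF τ) : GF τ) : Equiv.Perm (LT τ)) :=
        (h2 _).2 (by rw [MulEquiv.apply_symm_apply]; exact ⟨1, map_one τ, hf1⟩)
      have h5 : IsF τ u' c f := by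
        have h6 := (IMF_smulF u' c 1 f).1 (hc ▸ hf1)
        rwa [mul_one] at h6
      by_contra hne
      have hsd := (hS d' hd').2.2.1
      have hsu := (hS u' hu').2.2.1
      have h7 : si τ (c • u') = τ c • si τ u' := by
        unfold si
        refine Prod.ext ?_ ?_
        · funext i
          change τ (c * u'.1 (pn i)) = τ c * τ (u'.1 (pn i))
          rw [map_mul]
        · funext γ
          change (sn γ.1 : K) * τ (cf (c • u') (pv γ.1)) = τ c * ((sn γ.1 : K) * τ (cf u' (pv γ.1)))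
          have h8 : cf (c • u') (pv γ.1) = c * cf u' (pv γ.1) := by
            unfold cf
            split_ifs
            · rfl
            · rw [mul_zero]
          rw [h8, map_mul]
          ring
      rw [hc, h7, hsu] at hsd
      have h9 : (τ c - c) • u' = 0 := by rw [sub_smul, hsd, sub_self]
      rcases smul_eq_zero.1 h9 with h10 | h10
      · exact hne (sub_eq_zero.1 h10)
      · exact (hS u' hu').2.1 h10
    have h4 : ImF τ x u d' := by
      have := I4 u u' 1 c (map_one τ) hcτ one_ne_zero hc0 h1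
      rw [one_smul, ← hc] at this
      exact this
    obtain ⟨e, -, -, he⟩ := I1 u d d' hu hd h4 h2
    exact ⟨e, he⟩
  have hm2' : m ≠ 2 := by
    intro h
    have h3 := key a b a' b' ha hb ha' hb' hia hib (hp'.1 h)
    have h4 := hp.2 h3
    norm_num at h4
  have hm0' : m ≠ 0 := by
    intro h
    rw [h] at hT'
    obtain ⟨T1, -⟩ := hTHF K τ hτ a b
    obtain ⟨-, T2⟩ := hTHF K τ hτ a' b'
    obtain ⟨d, hd, hda, hdb, hD⟩ := T1 hT
    obtain ⟨d', hd', hid⟩ := hx d hd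
    obtain ⟨g, hg, hgx⟩ := (hG d' hd').1 1 (map_one τ)
    have e1 : x (x.symm (⟨g, hg⟩ : GF τ)) = ⟨g, hg⟩ := x.apply_symm_apply _
    have p1 : InX τ d ((x.symm (⟨g, hg⟩ : GF τ) : GF τ) : Equiv.Perm (LT τ)) :=
      (hid _).2 (by rw [e1]; exact ⟨1, map_one τ, hgx⟩)
    obtain ⟨h1, h2, q1, q2, q3⟩ := hD _ p1
    have m1 : h1 ∈ GF τ := by
      obtain ⟨t, ht, hh⟩ := q1
      exact (hG a ha).2.1 t h1 ht hh
    have m2 : h2 ∈ GF τ := by
      obtain ⟨t, ht, hh⟩ := q2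
      exact (hG b hb).2.1 t h2 ht hh
    have e2 : x.symm (⟨g, hg⟩ : GF τ) = (⟨h1, m1⟩ : GF τ) * ⟨h2, m2⟩ := Subtype.ext q3
    have e3 : (⟨g, hg⟩ : GF τ) = x ⟨h1, m1⟩ * x ⟨h2, m2⟩ := by rw [← map_mul, ← e2, e1]
    have r1 := (hia ⟨h1, m1⟩).1 q1
    have r2 := (hib ⟨h2, m2⟩).1 q2
    rcases T2 hT' d' hd' ⟨g, _, _, hgx, r1, r2, congrArg Subtype.val e3⟩ with hc | hc
    · obtain ⟨c, hc⟩ := key a d a' d' ha hd ha' hd' hia hid hc
      exact hda c hc
    · obtain ⟨c, hc⟩ := key b d b' d' hb hd hb' hd' hib hid hc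
      exact hdb c hc
  have : m = 1 := by omega
  rw [this] at hT'
  exact hT'

end Pool.Agent.EXT
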