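import Pool.Agent.helper17.EXT.Spec

/-!
# Row `ft:LST`: the list of the roots of `E₆`
-/

set_option autoImplicit false

open Finset

namespace Pool.Agent.EXT

open Pool.Agent.EXC

set_option maxRecDepth 100000 in
theorem LST_closed : ∀ w ∈ RL, ∀ i : Fin 6, rf C6 i w ∈ RL := by decide +kernel

set_option maxRecDepth 100000 in
theorem LST_root : ∀ w ∈ RL, ip C6 w w = 2 := by decide +kernel

theorem LST_sr : (sr 0 : Fin 6 → ℤ) ∈ RL := by decide +kernel

theorem LST : LST_stmt := by
  intro v
  constructor
  · intro hv
    have h := f_DOM 6 C6 univ f_DE6.2.con (sr 0) v (ip_sr_self C6 0) hv (fun i hi => absurd (mem_univ i) hi)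
      (fun i hi => absurd (mem_univ i) hi)
    induction h with
    | refl => exact LST_sr
    | @tail b c _ hbc ih =>
      obtain ⟨i, -, rfl⟩ := hbc
      refine LST_closed _ (ih ?_) i
      have e := (f_RFL 6 C6 i b b).1
      rw [e] at hv
      exact hv
  · exact LST_root v

end Pool.Agent.EXT
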