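import Pool.Agent.helper17.EXT.SpecJ

/-! Row ftj:JSI (MP_561ff4_al): involutions which map long root subgroups to short root subgroups. -/

set_option autoImplicit false

open Finset

namespace Pool.Agent.EXT

open Pool.Agent.EXC

theorem JSI_swf (hGFX : GFX_stmt) (hESF : ESF_stmt) (hJSH : JSH_stmt) (K : Type) [Field K] (h2 : (2 : K) = 0)
    (x : MulAut (GF (RingEquiv.refl K))) (c : GF (RingEquiv.refl K)) (hx : SwF x) :
    SwF (MulAut.conj c * x * (MulAut.conj c)⁻¹) := by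
  intro a ha
  have hrr : ∀ x : K, RingEquiv.refl K (RingEquiv.refl K x) = x := fun _ => rfl
  obtain ⟨k, hk, hck⟩ := c.2
  have hci : ∀ v : LT (RingEquiv.refl K),
      (((c : Equiv.Perm (LT (RingEquiv.refl K)))⁻¹ v : LT (RingEquiv.refl K)) : Lm C6 K) = k⁻¹ (v : Lm C6 K) := by
    intro v
    have h1 := hck ((c : Equiv.Perm (LT (RingEquiv.refl K)))⁻¹ v)
    have h3 : (c : Equiv.Perm (LT (RingEquiv.refl K))) ((c : Equiv.Perm (LT (RingEquiv.refl K)))⁻¹ v) = v :=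
      Equiv.apply_symm_apply (c : Equiv.Perm (LT (RingEquiv.refl K))) v
    rw [h3] at h1
    rw [h1]
    exact (k.symm_apply_apply _).symm
  have hG := hGFX K (RingEquiv.refl K) hrr
  have hE := hESF K (RingEquiv.refl K) hrr
  have ha' : ExS (RingEquiv.refl K) (k⁻¹ a) := (hE.2 a ha).2.2.2.1 k⁻¹ (inv_mem hk)
  obtain ⟨h, hh, γ, hγ, H⟩ := hx (k⁻¹ a) ha'
  refine ⟨k * h, mul_mem hk hh, γ, hγ, fun f => ?_⟩
  have e1 : (MulAut.conj c * x * (MulAut.conj c)⁻¹) f = c * x (c⁻¹ * f * c) * c⁻¹ := by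
    rw [MulAut.mul_apply, MulAut.mul_apply, MulAut.conj_inv_apply, MulAut.conj_apply]
  have e2 : InX (RingEquiv.refl K) a (f : Equiv.Perm (LT (RingEquiv.refl K))) ↔
      InX (RingEquiv.refl K) (k⁻¹ a) ((c⁻¹ * f * c : GF (RingEquiv.refl K)) : Equiv.Perm (LT (RingEquiv.refl K))) := by
    constructor
    · rintro ⟨t, ht, hf⟩
      refine ⟨t, ht, ?_⟩
      have h1 := (hG.2 a ha).2.2.2.2 _ (inv_mem c.2) k⁻¹ (inv_mem hk) hci t _ hf
      rw [inv_inv] at h1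
      exact h1
    · rintro ⟨t, ht, hf⟩
      refine ⟨t, ht, ?_⟩
      have h1 := (hG.2 (k⁻¹ a) ha').2.2.2.2 _ c.2 k hk hck t _ hf
      have h3 : k (k⁻¹ a) = a := k.apply_symm_apply a
      have h4 : (c : Equiv.Perm (LT (RingEquiv.refl K))) * ((c⁻¹ * f * c : GF (RingEquiv.refl K)) :
          Equiv.Perm (LT (RingEquiv.refl K))) * (c : Equiv.Perm (LT (RingEquiv.refl K)))⁻¹ = f := by
        rw [Subgroup.coe_mul, Subgroup.coe_mul, Subgroup.coe_inv]
        group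
      rw [h3, h4] at h1
      exact h1
  have e3 : ∀ f' : GF (RingEquiv.refl K), InH h γ (f' : Equiv.Perm (LT (RingEquiv.refl K))) ↔
      InH (k * h) γ ((c * f' * c⁻¹ : GF (RingEquiv.refl K)) : Equiv.Perm (LT (RingEquiv.refl K))) := by
    intro f'
    constructor
    · intro hf
      exact (hJSH K h2 h hh γ hγ).2.2.2.2.1 _ hf _ c.2 k hk hck
    · intro hf
      have h1 := (hJSH K h2 (k * h) (mul_mem hk hh) γ hγ).2.2.2.2.1 _ hf _ (inv_mem c.2) k⁻¹ (inv_mem hk) hci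
      rw [inv_mul_cancel_left] at h1
      have h4 : (c : Equiv.Perm (LT (RingEquiv.refl K)))⁻¹ * ((c * f' * c⁻¹ : GF (RingEquiv.refl K)) :
          Equiv.Perm (LT (RingEquiv.refl K))) * (c : Equiv.Perm (LT (RingEquiv.refl K)))⁻¹⁻¹ = f' := by
        rw [Subgroup.coe_mul, Subgroup.coe_mul, Subgroup.coe_inv]
        group
      rw [h4] at h1
      exact h1
  rw [e1, e2, H, e3]

theorem JSI (hJSY : JSY_stmt) (hJXT : JXT_stmt) (hJ57 : J57_stmt) (hJLN : JLN_stmt) (hJR3 : JR3_stmt)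
    (hJGR : JGR_stmt) (hSGR : SGR_stmt) (hGFX : GFX_stmt) (hESF : ESF_stmt) (hJSH : JSH_stmt) : JSI_stmt := by
  intro K _ _ h2 x hx hsw
  obtain ⟨c, P, hP, hU, hPx⟩ := hJSY K h2 x hx
  have hx' : (MulAut.conj c * x * (MulAut.conj c)⁻¹) * (MulAut.conj c * x * (MulAut.conj c)⁻¹) = 1 := by
    have h1 : (MulAut.conj c * x * (MulAut.conj c)⁻¹) * (MulAut.conj c * x * (MulAut.conj c)⁻¹) =
        MulAut.conj c * (x * x) * (MulAut.conj c)⁻¹ := by group
    rw [h1, hx, mul_one, mul_inv_cancel]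
  have hsw' := JSI_swf hGFX hESF hJSH K h2 x c hsw
  have hch : CharP K 2 := (CharP.charP_iff_prime_eq_zero Nat.prime_two).2 (by exact_mod_cast h2)
  have h57 := hJ57 K (ZMod.castHom (dvd_refl 2) K) _ (fun f => (hJXT K h2 _ hx' hsw' P hP hU hPx f).1)
  have hA := hJLN K h2 _ hx' hsw' P hP hU hPx (hJXT K h2 _ hx' hsw' P hP hU hPx)
  have h3 := hJR3 K h2 _ hx' hA
  exact ⟨(hJGR _ x 3 2).2 c h3, (hJGR _ x 5 4).2 c h57.1, (hJGR _ x 7 6).2 c h57.2⟩

end Pool.Agent.EXT
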